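import Pool.Agent.H18.XX.Defs

/-!
# The exponential hierarchy in EQP: targets, part A (relative hiding)

`A` is an event, `t` is a game whose value is zero outside the event; all errors are relative to the
probability of the event, up to doubly exponentially small ones.
-/

set_option autoImplicit false

namespace Pool.Agent.H18.XX

open Finset Pool.Agent.H6.NB Pool.Agent.H70.OQ Pool.Agent.H70.EH Pool.Agent.H70.EI Pool.Agent.H78.XQ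
open Pool.Agent.H66.IP (Local ins sp dm IsZ scl mBp m0p)
open Pool.Agent.H66.IQ Pool.Agent.H66.AV
open Pool.Agent.H66.XP (Bc)

/-- RMR: the sum of the products, relative to the event. -/
def T_RMR : Prop := ∀ (V : Type) [Fintype V] [DecidableEq V] (β : ℝ) (t : Tr V)
  (A : (V → Bool) → Bool), 0 < β → (∀ y, A y = false → t.ev y = 0) → ∀ y,
  (∀ x z, 0 ≤ t.rr β x z y) ∧
  ∑ x, ∑ z, t.rr β x z y ≤ (t.dp + 1) * (4 * (t.wd : ℝ) ^ 2) * bi (A y)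

/-- GLR: the second level of the Fourier spectrum of a game, relative to the event. -/
def T_GLR : Prop := ∀ (V : Type) [Fintype V] [DecidableEq V] (β : ℝ) (k d q : ℕ) (t : Tr V)
  (A : (V → Bool) → Bool), 1 ≤ β → 1 ≤ k → t.cc ≤ k → t.dp ≤ d → t.wd ≤ q →
  (∀ y, A y = false → t.ev y = 0) →
  L12 (t.sv β) ≤ 4000 * β * (k : ℝ) ^ 2 * (d + 1) * (q : ℝ) ^ 2 * mn fun y => bi (A y)

/-- EVR: the values with and without soft choices, relative to the event. -/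
def T_EVR : Prop := ∀ (V : Type) (β : ℝ) (t : Tr V) (A : (V → Bool) → Bool), 0 < β →
  (∀ y, A y = false → t.ev y = 0) → ∀ y,
  t.sv β y ≤ t.ev y ∧ t.ev y ≤ t.sv β y + t.cc / β * bi (A y)

/-- G3R: the second level of the Fourier spectrum of a game whose leaves are formulas, relative to the
event. -/
def T_G3R : Prop := ∀ (V : Type) [Fintype V] [DecidableEq V] (β : ℝ) (k m S d w : ℕ) (t : Tr V)
  (A : (V → Bool) → Bool), 1 ≤ β → 1 ≤ k → 1 ≤ w → t.cc ≤ k → t.dp ≤ m → t.Cb S (d + 1) →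
  (∀ y, A y = false → t.ev y = 0) →
  L12 (t.sv β) ≤ (128 * (w : ℝ)) ^ (2 * (d + 1)) *
    (4000 * β * (k : ℝ) ^ 2 * (m + 1) * (w : ℝ) ^ 2 * mn (fun y => bi (A y)) +
      (Fintype.card V : ℝ) ^ 2 * 2 ^ m * ((S : ℝ) + 1) ^ (d + 1) / 2 ^ w)

/-- ONR: a game whose leaves are formulas does not see one copy, relative to the event. -/
def T_ONR : Prop := ∀ (q k m S d w : ℕ) (t : Tr (VV q)) (A : (VV q → Bool) → Bool), 10 ≤ q →
  1 ≤ k → 1 ≤ w → t.cc ≤ k → t.dp ≤ m → t.Cb S (d + 1) → Cl (VV q) S (d + 1) A →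
  (∀ y, A y = false → t.ev y = 0) →
  (128 * (w : ℝ)) ^ (2 * (d + 1)) * (4000 * (k : ℝ) ^ 2 * (m + 1) * (w : ℝ) ^ 2) ≤ 2 ^ (q / 4) →
  |∑ p, mv true q p * t.ev p - ∑ p, mv false q p * t.ev p| ≤
    (128 * (w : ℝ)) ^ (2 * (d + 1)) *
      (4003 * (k : ℝ) ^ 2 * (m + 1) * (w : ℝ) ^ 2 / 2 ^ (q / 4)) *
      ∑ p, mv false q p * bi (A p) +
    4 * ((128 * (w : ℝ)) ^ (2 * (d + 1)) *
      ((2 * 2 ^ q) ^ 2 * 2 ^ m * ((S : ℝ) + 1) ^ (d + 1) / 2 ^ w) + 1 / 2 ^ 2 ^ (q - 2))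

/-- HYC: replacement of independent copies, relative to `H`. -/
def T_HYC : Prop := ∀ (U T : Type) [Fintype U] [DecidableEq U] [Fintype T] [DecidableEq T]
  (a b : T → ℝ) (F H : (U → T) → ℝ) (ε τ : ℝ), (∀ p, 0 ≤ a p) → (∀ p, 0 ≤ b p) → ∑ p, a p = 1 →
  ∑ p, b p = 1 → (∀ P, 0 ≤ H P) → 0 ≤ ε → 3 * (Fintype.card U * ε) ≤ 1 → 0 ≤ τ →
  (∀ P u, |∑ p, a p * F (Function.update P u p) - ∑ p, b p * F (Function.update P u p)| ≤
    ε * ∑ p, b p * H (Function.update P u p) + τ) →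
  (∀ P u, |∑ p, a p * H (Function.update P u p) - ∑ p, b p * H (Function.update P u p)| ≤
    ε * ∑ p, b p * H (Function.update P u p) + τ) →
  |∑ P, (∏ u, a (P u)) * F P - ∑ P, (∏ u, b (P u)) * F P| ≤
    3 * (Fintype.card U * ε) * ∑ P, (∏ u, b (P u)) * H P + 4 * (Fintype.card U * τ)

open Classical in
/-- SYR: the copies say the bit `b` with overwhelming probability. -/
def T_SYR : Prop := ∀ r l q R n : ℕ, Sz r l q R n → ∀ b : Bool,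
  ∑ P : (Fin (2 * l) → Bool) → VV q → Bool, (∏ u, mv b q (P u)) *
    (if SayX q l b P then 0 else 1) ≤ Real.exp (-(2 ^ l / 2))

/-- BLR: a function does not see a block if it does not see a copy and the correction string, relative
to `H`. -/
def T_BLR : Prop := ∀ r l q R n : ℕ, Sz r l q R n → ∀ (b : Bool) (F H : Bc q l n → ℝ)
  (ε₁ τ₁ ε₂ τ₂ : ℝ), (∀ c, |F c| ≤ 1) → (∀ c, 0 ≤ H c ∧ H c ≤ 1) → 0 ≤ ε₁ → 0 ≤ τ₁ → 0 ≤ ε₂ →
  ε₂ ≤ 1 → 0 ≤ τ₂ → 3 * (2 ^ (2 * l) * ε₁) ≤ 1 →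
  (∀ P u h, |∑ p, mv true q p * F (Function.update P u p, h) -
    ∑ p, mv false q p * F (Function.update P u p, h)| ≤
    ε₁ * ∑ p, mv false q p * H (Function.update P u p, h) + τ₁) →
  (∀ P u h, |∑ p, mv true q p * H (Function.update P u p, h) -
    ∑ p, mv false q p * H (Function.update P u p, h)| ≤
    ε₁ * ∑ p, mv false q p * H (Function.update P u p, h) + τ₁) →
  (∀ (P : (Fin (2 * l) → Bool) → VV q → Bool) (W : ℕ),
    |(W : ℝ) - 2 ^ n / 2| ≤ R / 2 ^ l * 2 ^ n →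
    |wm (fun _ => none) W (fun h : (Fin n → Bool) → Bool => F (P, h)) -
      mn fun h : (Fin n → Bool) → Bool => F (P, h)| ≤
      ε₂ * (mn fun h : (Fin n → Bool) → Bool => H (P, h)) + τ₂) →
  |∑ c, mB q l R n b c * F c - ∑ c, m0 q l n c * F c| ≤
    (3 * (2 ^ (2 * l) * ε₁) + 2 * ε₂) * ∑ c, m0 q l n c * H c +
      (8 * (2 ^ (2 * l) * τ₁) + τ₂ + Real.exp (-(2 ^ l / 2)))

/-- RGW: a game whose leaves are formulas on strings of given weight, relative to the event. -/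
def T_RGW : Prop := ∀ (V : Type) [Fintype V] [DecidableEq V] [Nonempty V] (S d w W : ℕ) (δ : ℝ)
  (t : Tr V) (A : (V → Bool) → Bool), 1 ≤ w → 0 < δ →
  1000 * (w : ℝ) ^ 2 * (δ * (128 * (w : ℝ)) ^ (d + 1) +
    √(2 * (128 * (w : ℝ)) ^ (d + 1) / Fintype.card V) +
    (128 * (w : ℝ)) ^ (d + 1) / Fintype.card V) ≤ 1 → t.Cb S (d + 1) → Cl V S (d + 1) A →
  (∀ y, A y = false → t.ev y = 0) → |(W : ℝ) - Fintype.card V / 2| ≤ δ * Fintype.card V →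
  |wm (fun _ => none) W t.ev - mn t.ev| ≤
    1000 * (w : ℝ) ^ 2 * (δ * (128 * (w : ℝ)) ^ (d + 1) +
      √(2 * (128 * (w : ℝ)) ^ (d + 1) / Fintype.card V) +
      (128 * (w : ℝ)) ^ (d + 1) / Fintype.card V) * (mn fun y => bi (A y)) +
    (2 * 2 ^ t.dp * ((S : ℝ) + 1) ^ (d + 1) / 2 ^ w +
      4 * Real.exp (-(Fintype.card V * δ ^ 2 / 4)))

/-- NUR: estimates for the error terms. -/
def T_NUR : Prop := ∀ r l q R n : ℕ, Sz r l q R n → ∀ (w S L e₁ ε₂ : ℝ),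
  w = ((4 ^ r ^ 2 : ℕ) : ℝ) → S = ((2 ^ bd r : ℕ) : ℝ) → L = (128 * w) ^ (r + 4) →
  e₁ = (128 * w) ^ (2 * (r + 4)) * (4003 * (bd r : ℝ) ^ 2 * (bd r + 1) * w ^ 2 / 2 ^ (q / 4)) →
  ε₂ = 1000 * w ^ 2 * (R / 2 ^ l * L + √(2 * L / 2 ^ n) + L / 2 ^ n) →
  (128 * w) ^ (2 * (r + 4)) * (4000 * (bd r : ℝ) ^ 2 * (bd r + 1) * w ^ 2) ≤ 2 ^ (q / 4) ∧
  3 * (2 ^ (2 * l) * e₁) ≤ 1 ∧ ε₂ ≤ 1 ∧
  3 * (2 ^ (2 * l) * e₁) + 2 * ε₂ ≤ (1 / 2) ^ r ^ 3 ∧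
  8 * (2 ^ (2 * l) * (4 * ((128 * w) ^ (2 * (r + 4)) *
      ((2 * 2 ^ q) ^ 2 * 2 ^ bd r * (S + 1) ^ (r + 4) / 2 ^ (4 ^ r ^ 2 : ℕ)) +
        1 / 2 ^ 2 ^ (q - 2)))) +
    (2 * 2 ^ bd r * (S + 1) ^ (r + 4) / 2 ^ (4 ^ r ^ 2 : ℕ) +
      4 * Real.exp (-(2 ^ n * (R / 2 ^ l) ^ 2 / 4))) +
    Real.exp (-(2 ^ l / 2)) ≤ 1 / 2 ^ 2 ^ (r + 3)

/-- RBF: a game whose leaves are formulas does not see a block, relative to an event. -/
def T_RBF : Prop := ∀ r l q R n : ℕ, Sz r l q R n → ∀ (b : Bool) (B : Bc q l n → Bool)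
  (F : Bc q l n → ℝ),
  (∀ P u h, Cl (VV q) (2 ^ bd r) (r + 2) fun c => B (Function.update P u c, h)) →
  (∀ P, Cl (Fin n → Bool) (2 ^ bd r) (r + 2) fun h => B (P, h)) →
  (∀ P u h, ∃ t : Tr (VV q), t.dp ≤ bd r ∧ t.Cb (2 ^ bd r) (r + 2) ∧
    ∀ y, F (Function.update P u y, h) = t.ev y) →
  (∀ P, ∃ t : Tr (Fin n → Bool), t.dp ≤ bd r ∧ t.Cb (2 ^ bd r) (r + 2) ∧
    ∀ h, F (P, h) = t.ev h) →
  |∑ c, mB q l R n b c * (F c * bi (B c)) - ∑ c, m0 q l n c * (F c * bi (B c))| ≤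
    (1 / 2) ^ r ^ 3 * ∑ c, m0 q l n c * bi (B c) + 1 / 2 ^ 2 ^ (r + 3)

end Pool.Agent.H18.XX
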