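import Pool.Agent.H18.XX.TA

/-!
# The exponential hierarchy in EQP: targets, part B (the construction of the oracle)
-/

set_option autoImplicit false

namespace Pool.Agent.H18.XX

open Finset Pool.Agent.H6.NB Pool.Agent.H70.OQ Pool.Agent.H70.EH Pool.Agent.H70.EI Pool.Agent.H78.XQ
open Pool.Agent.H66.IP (Local ins sp dm IsZ scl mBp m0p)
open Pool.Agent.H66.IQ Pool.Agent.H66.AV
open Pool.Agent.H17.XW (Una)

/-! ## The hybrid -/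

open Classical in
/-- CON: the distributions which depend on all coordinates are replaced by the uniform ones, beginning
with the coordinates of the largest order. -/
def T_CON : Prop := ∀ (I : Type) [Fintype I] [DecidableEq I] (T : I → Type) [∀ j, Fintype (T j)]
  (ord : I → ℕ) (m₀ : ∀ j, T j → ℝ) (m : Bool → ∀ j, T j → ℝ) (f : (∀ j, T j) → I → Bool)
  (ε τ : I → ℝ), (∀ j p, 0 ≤ m₀ j p) → (∀ j, ∑ p, m₀ j p = 1) → (∀ b j p, 0 ≤ m b j p) →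
  (∀ b j, ∑ p, m b j p ≤ 1) → (∀ j, 0 ≤ ε j) → (∀ j, 0 ≤ τ j) →
  (∀ j, Rhd ord m₀ m f ε τ j fun _ => 1) →
  ∑ j, (2 * ε j + 2 ^ (univ.filter fun i => ord i ≤ ord j).card * τ j) ≤ 1 / 4 →
  3 / 4 ≤ ∑ P : (∀ j, T j), ∏ j, m (f P j) j (P j) ∧
  (∀ n, ∑ P : (∀ j, T j), (∏ j, if ord j ≤ n then m (f P j) j (P j) else m₀ j (P j)) ≤ 5 / 4) ∧
  ∀ (n : ℕ) (F : (∀ j, T j) → ℝ), (∀ j, n < ord j → Rhd ord m₀ m f ε τ j F) →
    |∑ P : (∀ j, T j), (∏ j, m (f P j) j (P j)) * F P -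
      ∑ P : (∀ j, T j), (∏ j, if ord j ≤ n then m (f P j) j (P j) else m₀ j (P j)) * F P| ≤
      ∑ j ∈ univ.filter (fun j => n < ord j),
        (2 * ε j + 2 ^ (univ.filter fun i => ord i ≤ ord j).card * τ j)

/-! ## Machines, counting -/

open Classical in
/-- CLO: the answers of the instances of scale at most `r` are formulas. -/
def T_CLO : Prop := ∀ (X : Type) (V : ℕ → Exa) (E : Finset (ℕ × List Bool)) (r : ℕ)
  (O : (X → Bool) → List Bool → Bool) (κ : {a // a ∈ E} → Bool), Lit O → 20 ≤ r →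
  Cl X (2 ^ bd r) (r + 2) fun y =>
    decide (∀ i : {a // a ∈ E}, scl (lx V) i.1 ≤ r → ax V (O y) i.1 = κ i)

/-- CTN: the number of the instances, and the sums of the errors. -/
def T_CTN : Prop := ∀ (V : ℕ → Exa) (E : Finset (ℕ × List Bool)),
  (∀ r, (E.filter fun a => scl (lx V) a ≤ r).card ≤ 2 ^ r) ∧
  (∑ p : {a // a ∈ E}, (2 * (1 / 2 : ℝ) ^ scl (lx V) p.1 ^ 3 +
    2 ^ (univ.filter fun i : {a // a ∈ E} => scl (lx V) i.1 ≤ scl (lx V) p.1).card *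
      (1 / 2 ^ 2 ^ (scl (lx V) p.1 + 3)))) ≤ 1 / 4 ∧
  ∀ s, 20 ≤ s → (∑ p ∈ univ.filter (fun p : {a // a ∈ E} => s < scl (lx V) p.1),
    (2 * (1 / 2 : ℝ) ^ scl (lx V) p.1 ^ 3 +
      2 ^ (univ.filter fun i : {a // a ∈ E} => scl (lx V) i.1 ≤ scl (lx V) p.1).card *
        (1 / 2 ^ 2 ^ (scl (lx V) p.1 + 3)))) ≤ (1 / 2) ^ s ^ 3

/-! ## The blocks are hidden -/

/-- ONE: the function `1`. -/
def T_ONE : Prop := ∀ (V : ℕ → Exa) (E : Finset (ℕ × List Bool))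
  (O : (∀ p : {a // a ∈ E}, Cz V p.1) → (List Bool → Bool) → List Bool → Bool),
  IsZ (dm (lx V)) E O → ∀ (g : List Bool → Bool) (p : {a // a ∈ E}), RhZ V E O g p fun _ => 1

/-- PFR: a pair of protocols does not see the blocks of large scale. -/
def T_PFR : Prop := ∀ (V : ℕ → Exa) (k : ℕ), ∃ n₀, ∀ n ≥ n₀, ∀ G₁ G₂ : Prot k,
  G₁.Within (2 ^ (2 * Nat.log 2 n ^ 2)) → G₂.Within (2 ^ (2 * Nat.log 2 n ^ 2)) →
  ∀ (E : Finset (ℕ × List Bool))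
    (O : (∀ p : {a // a ∈ E}, Cz V p.1) → (List Bool → Bool) → List Bool → Bool),
    IsZ (dm (lx V)) E O → ∀ (g g₁ g₂ : List Bool → Bool) (p : {a // a ∈ E}),
      Nat.log 2 n + 18 < scl (lx V) p.1 →
      RhZ V E O g p fun P => G₁.val (O P g₁) * G₂.val (O P g₂)

/-! ## Weights -/

/-- HYZ: the masses of the weights, and the replacement of the blocks of large scale. -/
def T_HYZ : Prop := ∀ (V : ℕ → Exa) (E : Finset (ℕ × List Bool))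
  (O : (∀ p : {a // a ∈ E}, Cz V p.1) → (List Bool → Bool) → List Bool → Bool),
  IsZ (dm (lx V)) E O → ∀ g : List Bool → Bool,
  (∀ P, 0 ≤ wz V E O g P ∧ ∀ s, 0 ≤ wy V E O s g P) ∧ 3 / 4 ≤ ∑ P, wz V E O g P ∧
  (∀ s, ∑ P, wy V E O s g P ≤ 5 / 4) ∧
  ∀ (s : ℕ) (Φ : (∀ p : {a // a ∈ E}, Cz V p.1) → ℝ), 20 ≤ s →
    (∀ p : {a // a ∈ E}, s < scl (lx V) p.1 → RhZ V E O g p Φ) →
    |∑ P, wz V E O g P * Φ P - ∑ P, wy V E O s g P * Φ P| ≤ (1 / 2) ^ s ^ 3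

/-- LOY: the blocks of small scale depend only on the short strings. -/
def T_LOY : Prop := ∀ (V : ℕ → Exa) (E : Finset (ℕ × List Bool))
  (O : (∀ p : {a // a ∈ E}, Cz V p.1) → (List Bool → Bool) → List Bool → Bool),
  IsZ (dm (lx V)) E O → ∀ (n : ℕ) (g g' : List Bool → Bool), 4 ≤ n →
    (∀ w, w.length ≤ n → g w = g' w) → ∀ P,
    wy V E O (Nat.log 2 n + 18) g P = wy V E O (Nat.log 2 n + 18) g' P

/-- RXZ: the expectation of the test function. -/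
def T_RXZ : Prop := ∀ (V : ℕ → Exa) (k : ℕ), ∃ n₀, ∀ n ≥ n₀,
  ∀ (A C : (Fin n → Bool) → Prot k) (B : ℕ), 1 ≤ B →
  (∀ x, (A x).Within (2 ^ (2 * Nat.log 2 n ^ 2))) →
  (∀ x, (C x).Within (2 ^ (2 * Nat.log 2 n ^ 2))) →
  (∀ x O, 1 - (C x).val O = (1 - (A x).val O) ^ B) → ∀ ε : ℝ, 0 < ε →
  ∀ (E : Finset (ℕ × List Bool))
    (O : (∀ p : {a // a ∈ E}, Cz V p.1) → (List Bool → Bool) → List Bool → Bool),
    IsZ (dm (lx V)) E O → ∀ g : List Bool → Bool,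
  ∑ z : Wn n k, ∑ P, wz V E O (ovl n k g (tbl z)) P *
      tst ε A C (fun T => O P (ovl n k g T)) z ≤
    Fintype.card (Wn n k) * (2 * (32 / ε ^ 2 * (1 / 2) ^ (n / 3) +
      2 / ε * (1 / B + 2 * (1 / 2) ^ (n / 3))) +
      (36 / ε ^ 2 + 4 / ε) * (1 / 2) ^ (Nat.log 2 n + 18) ^ 3)

/-! ## The theorem -/

/-- NUZ: numbers. -/
def T_NUZ : Prop := ∃ n₀, ∀ n ≥ n₀, ∀ L j : ℕ, L = Nat.log 2 n → j = L ^ 2 / 16 →
  (2 * (4 * j + 9) + 1) * 4 ^ (4 * j + 9) * 2 ^ L ^ 2 ≤ 2 ^ (2 * L ^ 2) ∧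
  2 ^ (3 * j + 5) * ((2 * (4 * j + 9) + 1) * 4 ^ (4 * j + 9) * 2 ^ L ^ 2) ≤ 2 ^ (2 * L ^ 2) ∧
  ((2 ^ (3 * j + 5) : ℕ) : ℝ) * (1 / 2) ^ (4 * j + 9) ≤ (1 / 2) ^ j / 4 ∧
  2 * (32 / ((1 / 2 : ℝ) ^ j) ^ 2 * (1 / 2) ^ (n / 3) +
      2 / (1 / 2) ^ j * (1 / ((2 ^ (3 * j + 5) : ℕ) : ℝ) + 2 * (1 / 2) ^ (n / 3))) +
      (36 / ((1 / 2 : ℝ) ^ j) ^ 2 + 4 / (1 / 2) ^ j) * (1 / 2) ^ (L + 18) ^ 3 ≤
    (1 / 2) ^ (L ^ 2 / 8)

/-- SUZ: the expectation of the test function for all tables at once, uniformly in the protocols. -/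
def T_SUZ : Prop := ∀ (V : ℕ → Exa) (k : ℕ), ∃ n₁, ∀ n ≥ n₁, ∀ G : List Bool → Prot k,
  (∀ x : Fin n → Bool, (G (List.ofFn x)).Within (2 ^ Nat.log 2 n ^ 2)) →
  ∃ A C : (Fin n → Bool) → Prot k,
    (∀ (Q : ((Fin n → Bool) → Nn n k → Bool) → List Bool → Bool) (z : Wn n k),
      0 ≤ tst ((1 / 2) ^ (Nat.log 2 n ^ 2 / 16)) A C Q z ∧
      ((∀ x, List.ofFn x ∈ alang k (Q (tbl z)) ↔ (z x).1 = true) →
        tst ((1 / 2) ^ (Nat.log 2 n ^ 2 / 16)) A C Q z < 1 →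
        (rights G (Q (tbl z)) n : ℝ) ≤ (1 / 2 + (1 / 2) ^ (Nat.log 2 n ^ 2 / 16)) * 2 ^ n)) ∧
    ∀ (M : ℕ) (hk : k < M) (hn : n < M) (E : Finset (ℕ × List Bool))
      (O : (∀ p : {a // a ∈ E}, Cz V p.1) → (List Bool → Bool) → List Bool → Bool),
      IsZ (dm (lx V)) E O →
      ∑ z : Za M, ∑ P, wz V E O (gza M z) P *
        tst ((1 / 2) ^ (Nat.log 2 n ^ 2 / 16)) A C (fun T => O P (ovl n k (gza M z) T))
          (z (⟨k, hk⟩, ⟨n, hn⟩)) ≤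
      Fintype.card (Za M) * (1 / 2) ^ (Nat.log 2 n ^ 2 / 8)

/-- FMW: the oracle for finitely many requirements. -/
def T_FMW : Prop := ∀ (V : ℕ → Exa) (G : ℕ → (k : ℕ) × (List Bool → List Bool → Prot k)),
  (∀ j, ∃ n₀, ∀ a x : List Bool, n₀ ≤ x.length → 16 * a.length ≤ Nat.log 2 x.length ^ 2 →
    ((G j).2 a x).Within (2 ^ Nat.log 2 x.length ^ 2)) →
  ∃ N : ℕ → ℕ, ∀ M : ℕ, ∃ O : List Bool → Bool,
    (∀ p, (sp (lx V) p).length ≤ M → GoodZ V p O) ∧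
    (∀ k n, k < M → n < M → ∀ x : Fin n → Bool,
      Una O (k + 1) n (false :: hdr k (List.ofFn x))) ∧
    ∀ j < M, ∀ n < M, N j ≤ n → ∀ a : List Bool, 16 * a.length ≤ Nat.log 2 n ^ 2 →
      (rights ((G j).2 a) O n : ℝ) ≤ (1 / 2 + (1 / 2) ^ (Nat.log 2 n ^ 2 / 16)) * 2 ^ n

/-- GDZ: it depends on finitely many strings whether an instance is good. -/
def T_GDZ : Prop := ∀ (V : ℕ → Exa) (p : ℕ × List Bool), ∃ L, ∀ O O' : List Bool → Bool,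
  (∀ w, w.length ≤ L → O w = O' w) → GoodZ V p O → GoodZ V p O'

/-- EXZ: the exact algorithm outputs the answer of a good instance. -/
def T_EXZ : Prop := ∀ (V : ℕ → Exa) (i : ℕ) (x : List Bool) (O : List Bool → Bool),
  GoodZ V (i, x) O →
    (x ∈ (V i).M.lang O → (exact (ins (V i).c i x)).prob O = 1) ∧
    (x ∉ (V i).M.lang O → (exact (ins (V i).c i x)).prob O = 0)

/-- FIW: the theorem. -/
def T_FIW : Prop := ∀ (V : ℕ → Exa) (G : ℕ → (k : ℕ) × (List Bool → List Bool → Prot k)),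
  (∀ j, ∃ n₀, ∀ a x : List Bool, n₀ ≤ x.length → 16 * a.length ≤ Nat.log 2 x.length ^ 2 →
    ((G j).2 a x).Within (2 ^ Nat.log 2 x.length ^ 2)) →
  ∃ O : List Bool → Bool,
    (∀ i x, (x ∈ (V i).M.lang O → (exact (ins (V i).c i x)).prob O = 1) ∧
      (x ∉ (V i).M.lang O → (exact (ins (V i).c i x)).prob O = 0)) ∧
    (∀ (k : ℕ) (x : List Bool), Una O (k + 1) x.length (false :: hdr k x)) ∧
    ∀ j, ∃ n₀, ∀ n ≥ n₀, ∀ a : List Bool, 16 * a.length ≤ Nat.log 2 n ^ 2 →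
      (rights ((G j).2 a) O n : ℝ) ≤ (1 / 2 + (1 / 2) ^ (Nat.log 2 n ^ 2 / 16)) * 2 ^ n

end Pool.Agent.H18.XX
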