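import Pool.Agent.H17.XW.All
import Pool.Agent.H6.XX.GLR
import Pool.Agent.H12.XX.RH
import Pool.Agent.H13.XX.FMW
import Pool.Agent.H13.XX.SUZ
import Pool.Agent.H15.XX.RBF
import Pool.Agent.H15.XX.RGW
import Pool.Agent.H17.XX.COS
import Pool.Agent.H17.XX.HYC
import Pool.Agent.H17.XX.HYZ
import Pool.Agent.H19.XX.FIW
import Pool.Agent.H19.XX.GDZ
import Pool.Agent.H21.XX.G3R
import Pool.Agent.H32.XX.CLO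
import Pool.Agent.H40.XX.CTN
import Pool.Agent.H40.XX.ONR
import Pool.Agent.H44.XX.SYR
import Pool.Agent.H58.XX.EVR
import Pool.Agent.H58.XX.NUZ
import Pool.Agent.H61.XX.EXZ
import Pool.Agent.H78.XX.RMR
import Pool.Agent.H86.XX.NUR
import Pool.Agent.H88.XX.BLR
import Pool.Agent.H88.XX.RXZ
import Pool.Agent.H90.XX.LOY

/-!
# Assembly: the exponential hierarchy in EQP
-/

set_option autoImplicit false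

namespace Pool.Agent.H18.XX

theorem qf_RMR : T_RMR := Pool.Agent.H78.XX.pf_RMR Pool.Agent.H66.IQ.pf_RSM

theorem qf_GLR : T_GLR := Pool.Agent.H6.XX.pf_GLR Pool.Agent.H66.IQ.pf_PTW qf_RMR

theorem qf_EVR : T_EVR := Pool.Agent.H58.XX.pf_EVR Pool.Agent.H66.IQ.pf_EVS

theorem qf_G3R : T_G3R := Pool.Agent.H21.XX.pf_G3R Pool.Agent.H66.IQ.pf_EVS qf_GLR
  Pool.Agent.H66.IQ.pf_SWD Pool.Agent.H70.EI.pf_HTR_NB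

theorem qf_RWK : Pool.Agent.H17.EX.T_RWK := Pool.Agent.H17.EX.rwk Pool.Agent.H70.EI.pf_FOU_NB
  Pool.Agent.H70.EI.pf_RST_NB Pool.Agent.H70.EI.pf_DIR_NB Pool.Agent.H70.EI.pf_WLM_EH
  Pool.Agent.H70.EI.pf_MUV_EH Pool.Agent.H70.EI.pf_WLK_NB

theorem qf_ONR : T_ONR := Pool.Agent.H40.XX.pf_ONR qf_EVR Pool.Agent.H66.IQ.pf_EVS
  Pool.Agent.H66.IQ.pf_RTR qf_G3R qf_RWK Pool.Agent.H70.EI.pf_MUV_EH

theorem qf_HYC : T_HYC := Pool.Agent.H17.XX.pf_HYC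

theorem qf_SYR : T_SYR := Pool.Agent.H44.XX.pf_SYR Pool.Agent.H70.EI.pf_CHA_EH
  Pool.Agent.H70.EI.pf_PHV_EH Pool.Agent.H70.EI.pf_MUV_EH Pool.Agent.H70.EI.pf_PHB_NB
  Pool.Agent.H70.EI.pf_PHU_NB

theorem qf_BLR : T_BLR := Pool.Agent.H88.XX.pf_BLR qf_HYC qf_SYR Pool.Agent.H66.IP.pf_WEX
  Pool.Agent.H70.EI.pf_MUV_EH

theorem qf_RGW : T_RGW := Pool.Agent.H15.XX.pf_RGW Pool.Agent.H66.IQ.pf_SWD
  Pool.Agent.H66.IQ.pf_GWT Pool.Agent.H66.IQ.pf_KST Pool.Agent.H66.IQ.pf_SBT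
  Pool.Agent.H66.IQ.pf_EVS Pool.Agent.H78.XQ.pf_HOE Pool.Agent.H78.XQ.pf_EXC

theorem qf_NUR : T_NUR := Pool.Agent.H86.XX.pf_NUR

theorem qf_RBF : T_RBF := Pool.Agent.H15.XX.pf_RBF Pool.Agent.H66.IQ.pf_EVS
  Pool.Agent.H66.AV.pf_TPR Pool.Agent.H70.EI.pf_CLB_NB qf_BLR qf_ONR qf_RGW qf_NUR

theorem qf_CON : T_CON := Pool.Agent.H17.XX.pf_CON

theorem qf_CLO : T_CLO := Pool.Agent.H32.XX.pf_CLO Pool.Agent.H70.EI.pf_LCL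
  Pool.Agent.H70.EI.pf_CLB_NB Pool.Agent.H70.EI.pf_CNJ Pool.Agent.H70.EI.pf_FIS_NB

theorem qf_CTN : T_CTN := Pool.Agent.H40.XX.pf_CTN

theorem qf_ONE : T_ONE := Pool.Agent.H12.XX.pf_ONE Pool.Agent.H66.IP.pf_IZU
  Pool.Agent.H66.IP.pf_SPF qf_RBF qf_CLO

theorem qf_PFR : T_PFR := Pool.Agent.H12.XX.pf_PFR Pool.Agent.H66.IQ.pf_PTR
  Pool.Agent.H66.AV.pf_TPR Pool.Agent.H66.IP.pf_IZU Pool.Agent.H66.IP.pf_SPF qf_RBF qf_CLO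

theorem qf_HYZ : T_HYZ := Pool.Agent.H17.XX.pf_HYZ qf_CON qf_CTN qf_ONE Pool.Agent.H66.IP.pf_MSB

theorem qf_LOY : T_LOY := Pool.Agent.H90.XX.pf_LOY Pool.Agent.H66.IP.pf_IZU

theorem qf_NUZ : T_NUZ := Pool.Agent.H58.XX.pf_NUZ

theorem qf_RXZ : T_RXZ := Pool.Agent.H88.XX.pf_RXZ qf_PFR qf_HYZ qf_LOY Pool.Agent.H66.AV.pf_ID1
  Pool.Agent.H66.AV.pf_ID2 Pool.Agent.H66.AV.pf_AST Pool.Agent.H66.AV.pf_OVL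

theorem qf_SUZ : T_SUZ := Pool.Agent.H13.XX.pf_SUZ Pool.Agent.H66.AV.pf_AMP
  Pool.Agent.H66.AV.pf_POW qf_NUZ qf_RXZ Pool.Agent.H66.AV.pf_RCT Pool.Agent.H66.AV.pf_GZA
  Pool.Agent.H66.AV.pf_OVL

theorem qf_FMW : T_FMW := Pool.Agent.H13.XX.pf_FMW qf_SUZ qf_HYZ Pool.Agent.H66.AV.pf_ALG
  Pool.Agent.H66.AV.pf_OVL Pool.Agent.H66.AV.pf_GZA Pool.Agent.H66.IP.pf_ISZ
  Pool.Agent.H66.IP.pf_SPF Pool.Agent.H17.XW.pf_UNA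

theorem qf_GDZ : T_GDZ := Pool.Agent.H19.XX.pf_GDZ

theorem qf_EXZ : T_EXZ := Pool.Agent.H61.XX.pf_EXZ Pool.Agent.H78.XQ.pf_EXA

theorem qf_FIW : T_FIW := Pool.Agent.H19.XX.pf_FIW qf_FMW Pool.Agent.H66.AV.pf_CPT qf_GDZ
  Pool.Agent.H66.AV.pf_RLO Pool.Agent.H17.XW.pf_UNL qf_EXZ

end Pool.Agent.H18.XX
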