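import Pool.Agent.H17.XW.Stmt

/-!
# The exponential hierarchy in EQP: definitions

The alternating oracle machines `ATM` and their languages are those of `Pool.Agent.H70.EH.Stmt`.
-/

set_option autoImplicit false

namespace Pool.Agent.H18.XX

open Pool.Agent.H70.EH (ATM)

/-- An alternating oracle machine with time `2 ^ (n ^ c + c)` and at most `n ^ c + c` alternations
(the number of alternations plus the logarithm of the time is at most `n ^ c + c`): on inputs `x` of
length `n` there are `alt n` alternating quantifiers over strings of length at most `time n`, followed
by at most `time n` adaptive queries of length at most `time n`. Every level of the exponential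
hierarchy is of this form. -/
structure Exa where
  M : ATM
  c : ℕ
  bound : ∀ n, M.alt n + Nat.log 2 (M.time n) ≤ n ^ c + c

end Pool.Agent.H18.XX
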