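import Pool.Agent.H66.XP.Defs
import Pool.Agent.H18.XX.Stmt

/-!
# The exponential hierarchy in EQP: definitions for the proof
-/

set_option autoImplicit false

namespace Pool.Agent.H18.XX

open Finset Pool.Agent.H6.NB Pool.Agent.H70.OQ Pool.Agent.H70.EH Pool.Agent.H70.EI Pool.Agent.H78.XQ
open Pool.Agent.H66.IP (Local ins sp dm IsZ scl mBp m0p)
open Pool.Agent.H66.IQ Pool.Agent.H66.AV

/-- The bound for the games which do not see a block of scale `r`. -/
def bd (r : ℕ) : ℕ := 2 ^ (2 * (r ^ 2 - r))

/-- The local languages with the same exponents; they serve only for the positions of the blocks. -/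
def lx (V : ℕ → Exa) : ℕ → Local := fun i =>
  { c := (V i).c, acc := fun _ _ => False, loc := fun _ _ _ _ => Iff.rfl }

open Classical in
/-- The answer of the instance `p`. -/
noncomputable def ax (V : ℕ → Exa) (O : List Bool → Bool) (p : ℕ × List Bool) : Bool :=
  decide (p.2 ∈ (V p.1).M.lang O)

/-- The block of the instance `p` says the answer of the instance. -/
def GoodZ (V : ℕ → Exa) (p : ℕ × List Bool) (O : List Bool → Bool) : Prop :=
  OkB (qs (sp (lx V) p)) (sp (lx V) p).length (rns (sp (lx V) p)) (wln (sp (lx V) p))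
    (ax V O p) (cps O (sp (lx V) p), cst O (sp (lx V) p))

/-- The contents of the block of `p`. -/
abbrev Cz (V : ℕ → Exa) (p : ℕ × List Bool) : Type := CP (dm (lx V)) p

/-- The coordinate `j` is hidden from the function `F`, relative to the probabilities of the events
which are given by the bits `f` of the coordinates `i` with `ord i ≤ ord j`. -/
def Rhd {I : Type} [DecidableEq I] {T : I → Type} [∀ j, Fintype (T j)] (ord : I → ℕ)
    (m₀ : ∀ j, T j → ℝ) (m : Bool → ∀ j, T j → ℝ) (f : (∀ j, T j) → I → Bool) (ε τ : I → ℝ)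
    (j : I) (F : (∀ j, T j) → ℝ) : Prop :=
  ∀ (κ : I → Bool) (P : ∀ j, T j),
    |∑ p, m (κ j) j p * (F (Function.update P j p) *
        ic (∀ i, ord i ≤ ord j → f (Function.update P j p) i = κ i)) -
      ∑ p, m₀ j p * (F (Function.update P j p) *
        ic (∀ i, ord i ≤ ord j → f (Function.update P j p) i = κ i))| ≤
      ε j * ∑ p, m₀ j p * ic (∀ i, ord i ≤ ord j → f (Function.update P j p) i = κ i) + τ j

section

variable (V : ℕ → Exa) (E : Finset (ℕ × List Bool))
    (O : (∀ p : {a // a ∈ E}, Cz V p.1) → (List Bool → Bool) → List Bool → Bool)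

/-- The weight of the contents `P`: all blocks say the answers relative to the oracle with default
`g`. -/
noncomputable def wz (g : List Bool → Bool) (P : ∀ p : {a // a ∈ E}, Cz V p.1) : ℝ :=
  ∏ p : {a // a ∈ E}, mBp (lx V) p.1 (ax V (O P g) p.1) (P p)

open Classical in
/-- The weight of the contents `P`: the blocks of scale at most `s` say the answers relative to the
oracle with default `g`, the others are uniform. -/
noncomputable def wy (s : ℕ) (g : List Bool → Bool) (P : ∀ p : {a // a ∈ E}, Cz V p.1) : ℝ :=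
  ∏ p : {a // a ∈ E}, if scl (lx V) p.1 ≤ s then mBp (lx V) p.1 (ax V (O P g) p.1) (P p)
    else m0p (lx V) p.1 (P p)

/-- The block of `p` is hidden from the function `Φ` of the contents. -/
def RhZ (g : List Bool → Bool) (p : {a // a ∈ E})
    (Φ : (∀ p : {a // a ∈ E}, Cz V p.1) → ℝ) : Prop :=
  Rhd (T := fun p : {a // a ∈ E} => Cz V p.1) (fun p => scl (lx V) p.1)
    (fun p => m0p (lx V) p.1) (fun b p => mBp (lx V) p.1 b) (fun P p => ax V (O P g) p.1)
    (fun p => (1 / 2) ^ scl (lx V) p.1 ^ 3) (fun p => 1 / 2 ^ 2 ^ (scl (lx V) p.1 + 3)) p Φ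

end

end Pool.Agent.H18.XX
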